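import Pool.Agent.W297.LP.Stm

/-!
Project LP (helper297), part COST (helper28): a partition which is not the Turan partition costs
blue lollipops.
-/

set_option autoImplicit false

open Finset

namespace Pool.Agent.W28.LP

open Pool.Agent.W297.LP

theorem co_ker {V : Type} {W : V → V → ℝ} (hW : Ker W) : Ker (co W) :=
  ⟨fun x y => by simp [co, hW.symm x y],
    fun x y => by rcases hW.zo x y with h | h <;> simp [co, h]⟩

theorem ker_nn {V : Type} {W : V → V → ℝ} (hW : Ker W) (x y : V) : 0 ≤ W x y := by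
  rcases hW.zo x y with h | h <;> simp [h]

theorem ker_le {V : Type} {W : V → V → ℝ} (hW : Ker W) (x y : V) : W x y ≤ 1 := by
  rcases hW.zo x y with h | h <;> simp [h]

theorem td_nn {V : Type} [Fintype V] {W : V → V → ℝ} (hW : Ker W) (T : Tr) :
    ∀ x, 0 ≤ td W T x := by
  induction T with
  | pt => intro x; simp [td]
  | br A B hA hB =>
    intro x
    simp only [td]
    apply mul_nonneg (hA x)
    apply div_nonneg _ (Nat.cast_nonneg _)
    exact Finset.sum_nonneg (fun y _ => mul_nonneg (ker_nn hW x y) (hB y))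

open Classical in
/-- tuples with a first point -/
noncomputable def Gs {V : Type} [Fintype V] {K : ℕ} (U : V → V → ℝ) (D : Finset V) (v : V) :
    Finset (Fin K → V) :=
  univ.filter (fun z : Fin K → V => (∀ j, z j ∈ D) ∧ (∀ j, U v (z j) = 1) ∧
      ∀ j l, j ≠ l → U (z j) (z l) = 1)

theorem cons_le {V : Type} [Fintype V] {K : ℕ} (U : V → V → ℝ) (hU : Ker U) (D : Finset V) :
    ∑ v ∈ D, (Gs (K := K) U D v).card ≤ (cl U D (K + 1)).card := by
  classical
  rw [← Finset.card_sigma]
  apply Finset.card_le_card_of_injOn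
    (fun p : (Σ _ : V, (Fin K → V)) => (Fin.cons p.1 p.2 : Fin (K + 1) → V))
  · rintro ⟨v, z⟩ hp
    simp only [Gs, Finset.coe_sigma, Set.mem_sigma_iff, Finset.mem_coe, Finset.mem_filter,
      Finset.mem_univ, true_and] at hp
    simp only [cl, Finset.coe_filter, Finset.mem_univ, true_and, Set.mem_ofPred_eq]
    obtain ⟨h1, h2, h3, h4⟩ := hp
    constructor
    · intro i
      refine Fin.cases ?_ (fun j => ?_) i
      · simpa using h1
      · simpa using h2 j
    · intro i j
      refine Fin.cases ?_ (fun i => ?_) i <;> refine Fin.cases ?_ (fun j => ?_) j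
      · intro h; exact absurd rfl h
      · intro _; simpa using h3 j
      · intro _; rw [hU.symm]; simpa using h3 i
      · intro h
        have : i ≠ j := fun h' => h (by rw [h'])
        simpa using h4 i j this
  · rintro ⟨v, z⟩ - ⟨v', z'⟩ - h
    have h' : (Fin.cons v z : Fin (K + 1) → V) = Fin.cons v' z' := h
    rw [Fin.cons_inj] at h'
    obtain ⟨rfl, rfl⟩ := h'
    rfl

/-- counting one coordinate pair in a box -/
theorem box_pair {V : Type} [Fintype V] {K : ℕ} (W : V → V → ℝ) (hW : Ker W)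
    (B : Fin K → Finset V) (j l : Fin K) (hjl : j ≠ l) :
    ∑ z ∈ Fintype.piFinset B, W (z j) (z l) ≤
      (∑ a ∈ B j, ∑ b ∈ B l, W a b) * ∏ r ∈ univ \ {j, l}, ((B r).card : ℝ) := by
  classical
  have h1 : ∑ z ∈ Fintype.piFinset B, W (z j) (z l) =
      ∑ p ∈ B j ×ˢ B l, ∑ z ∈ (Fintype.piFinset B).filter (fun z => (z j, z l) = p),
        W (z j) (z l) := by
    rw [Finset.sum_fiberwise_of_maps_to]
    intro z hz
    rw [Fintype.mem_piFinset] at hz
    simp [hz j, hz l]
  rw [h1, Finset.sum_product, Finset.sum_mul]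
  apply Finset.sum_le_sum
  intro a ha
  rw [Finset.sum_mul]
  apply Finset.sum_le_sum
  intro b hb
  have h2 : ∑ z ∈ (Fintype.piFinset B).filter (fun z => (z j, z l) = (a, b)), W (z j) (z l) =
      ((Fintype.piFinset B).filter (fun z => (z j, z l) = (a, b))).card * W a b := by
    rw [← nsmul_eq_mul, ← Finset.sum_const]
    apply Finset.sum_congr rfl
    intro z hz
    simp only [Finset.mem_filter, Prod.mk.injEq] at hz
    rw [hz.2.1, hz.2.2]
  rw [h2, mul_comm]
  apply mul_le_mul_of_nonneg_left _ (ker_nn hW a b)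
  have h3 : (Fintype.piFinset B).filter (fun z => (z j, z l) = (a, b)) ⊆
      Fintype.piFinset (fun r => if r = j then {a} else if r = l then {b} else B r) := by
    intro z hz
    simp only [Finset.mem_filter, Prod.mk.injEq, Fintype.mem_piFinset] at hz
    rw [Fintype.mem_piFinset]
    intro r
    by_cases hr : r = j
    · subst hr; simp [hz.2.1]
    · by_cases hr' : r = l
      · subst hr'; simp [hr, hz.2.2]
      · simp [hr, hr', hz.1 r]
  have h4 := Finset.card_le_card h3
  rw [Fintype.card_piFinset] at h4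
  have h5 : ∏ r, (if r = j then ({a} : Finset V) else if r = l then {b} else B r).card =
      ∏ r ∈ univ \ {j, l}, (B r).card := by
    rw [← Finset.prod_subset (Finset.subset_univ (univ \ {j, l}))]
    · apply Finset.prod_congr rfl
      intro r hr
      simp only [Finset.mem_sdiff, Finset.mem_univ, Finset.mem_insert, Finset.mem_singleton,
        true_and, not_or] at hr
      simp [hr.1, hr.2]
    · intro r _ hr
      simp only [Finset.mem_sdiff, Finset.mem_univ, Finset.mem_insert, Finset.mem_singleton,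
        true_and, not_or, not_and, not_not] at hr
      by_cases h : r = j
      · simp [h]
      · have := hr h
        subst this
        simp [h]
  rw [h5] at h4
  exact_mod_cast h4

open Classical in
/-- the union bound -/
theorem box_good {V : Type} [Fintype V] {K : ℕ} (hK : 2 ≤ K) (W : V → V → ℝ) (hW : Ker W)
    (B : Fin K → Finset V) (w : Fin K → ℝ) (hw : ∀ r, 0 ≤ w r) (q d : ℝ) (hq : 0 ≤ q)
    (hd : 0 ≤ d)
    (h1 : ∀ r, q * (Fintype.card V : ℝ) ≤ (B r).card * w r)
    (h2 : ∀ r, (B r).card * w r ≤ (Fintype.card V : ℝ))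
    (h3 : ∀ j l, j ≠ l → (∑ a ∈ B j, ∑ b ∈ B l, W a b) * (w j * w l) ≤
      d * (Fintype.card V : ℝ) ^ 2) :
    (q ^ K - (K : ℝ) ^ 2 * d) * (Fintype.card V : ℝ) ^ K ≤
      (((Fintype.piFinset B).filter
        (fun z => ∀ j l, j ≠ l → co W (z j) (z l) = 1)).card : ℝ) * ∏ r, w r := by
  set n : ℝ := (Fintype.card V : ℝ) with hn
  have hn0 : 0 ≤ n := Nat.cast_nonneg _
  have hg : (((Fintype.piFinset B).card : ℝ) - ∑ p ∈ (univ : Finset (Fin K)).offDiag,
      ∑ z ∈ Fintype.piFinset B, W (z p.1) (z p.2)) ≤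
      (((Fintype.piFinset B).filter (fun z => ∀ j l, j ≠ l → co W (z j) (z l) = 1)).card : ℝ) := by
    rw [Finset.sum_comm, Finset.card_eq_sum_ones, Nat.cast_sum, ← Finset.sum_sub_distrib,
      Finset.card_filter, Nat.cast_sum]
    apply Finset.sum_le_sum
    intro z _
    by_cases hz : ∀ j l, j ≠ l → co W (z j) (z l) = 1
    · rw [if_pos hz]
      have : 0 ≤ ∑ p ∈ (univ : Finset (Fin K)).offDiag, W (z p.1) (z p.2) :=
        Finset.sum_nonneg (fun p _ => ker_nn hW _ _)
      push_cast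
      linarith
    · rw [if_neg hz]
      push Not at hz
      obtain ⟨j, l, hjl, hz⟩ := hz
      have h5 : W (z j) (z l) = 1 := by
        rcases hW.zo (z j) (z l) with h | h
        · exact absurd (by simp [co, h]) hz
        · exact h
      have h6 : W (z j) (z l) ≤ ∑ p ∈ (univ : Finset (Fin K)).offDiag, W (z p.1) (z p.2) :=
        Finset.single_le_sum (f := fun p : Fin K × Fin K => W (z p.1) (z p.2))
          (fun p _ => ker_nn hW _ _) (a := (j, l)) (by simp [hjl])
      push_cast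
      linarith
  have hwp : 0 ≤ ∏ r, w r := Finset.prod_nonneg (fun r _ => hw r)
  refine le_trans ?_ (mul_le_mul_of_nonneg_right hg hwp)
  rw [sub_mul, sub_mul]
  apply sub_le_sub
  · rw [Fintype.card_piFinset, Nat.cast_prod, ← Finset.prod_mul_distrib, ← mul_pow]
    have : (q * n) ^ K = ∏ _r : Fin K, (q * n) := by simp
    rw [this]
    exact Finset.prod_le_prod (fun r _ => mul_nonneg hq hn0) (fun r _ => h1 r)
  · rw [Finset.sum_mul]
    have hcard : (((univ : Finset (Fin K)).offDiag.card : ℕ) : ℝ) ≤ (K : ℝ) ^ 2 := by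
      rw [Finset.offDiag_card]
      have : (univ : Finset (Fin K)).card * (univ : Finset (Fin K)).card -
        (univ : Finset (Fin K)).card ≤ K ^ 2 := by
        rw [Finset.card_fin, sq]; exact Nat.sub_le _ _
      exact_mod_cast this
    have hterm : ∀ p ∈ (univ : Finset (Fin K)).offDiag,
        (∑ z ∈ Fintype.piFinset B, W (z p.1) (z p.2)) * ∏ r, w r ≤ d * n ^ K := by
      rintro ⟨j, l⟩ hp
      have hjl : j ≠ l := by simpa using hp
      have hb := box_pair W hW B j l hjl
      refine le_trans (mul_le_mul_of_nonneg_right hb hwp) ?_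
      have hs : ∏ r, w r = (∏ r ∈ univ \ {j, l}, w r) * (w j * w l) := by
        rw [← Finset.prod_sdiff (Finset.subset_univ ({j, l} : Finset (Fin K))),
          Finset.prod_pair hjl]
      rw [hs]
      have hs2 : (∑ a ∈ B j, ∑ b ∈ B l, W a b) * (∏ r ∈ univ \ {j, l}, ((B r).card : ℝ)) *
          ((∏ r ∈ univ \ {j, l}, w r) * (w j * w l)) =
          ((∑ a ∈ B j, ∑ b ∈ B l, W a b) * (w j * w l)) *
            ∏ r ∈ univ \ {j, l}, (((B r).card : ℝ) * w r) := by
        rw [Finset.prod_mul_distrib]; ring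
      rw [hs2]
      have hc : (univ \ {j, l} : Finset (Fin K)).card = K - 2 := by
        rw [Finset.card_sdiff_of_subset (Finset.subset_univ _), Finset.card_fin,
          Finset.card_pair hjl]
      have hs3 : ∏ r ∈ univ \ {j, l}, (((B r).card : ℝ) * w r) ≤ n ^ (K - 2) := by
        rw [← hc, ← Finset.prod_const]
        exact Finset.prod_le_prod (fun r _ => mul_nonneg (Nat.cast_nonneg _) (hw r))
          (fun r _ => h2 r)
      have hs4 : 0 ≤ ∏ r ∈ univ \ {j, l}, (((B r).card : ℝ) * w r) :=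
        Finset.prod_nonneg (fun r _ => mul_nonneg (Nat.cast_nonneg _) (hw r))
      calc ((∑ a ∈ B j, ∑ b ∈ B l, W a b) * (w j * w l)) *
            ∏ r ∈ univ \ {j, l}, (((B r).card : ℝ) * w r)
          ≤ (d * n ^ 2) * n ^ (K - 2) :=
            mul_le_mul (h3 j l hjl) hs3 hs4 (by positivity)
        _ = d * n ^ K := by
            rw [mul_assoc, ← pow_add]; congr 2; omega
    calc ∑ p ∈ (univ : Finset (Fin K)).offDiag,
          (∑ z ∈ Fintype.piFinset B, W (z p.1) (z p.2)) * ∏ r, w r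
        ≤ ∑ _p ∈ (univ : Finset (Fin K)).offDiag, d * n ^ K := Finset.sum_le_sum hterm
      _ = (((univ : Finset (Fin K)).offDiag.card : ℕ) : ℝ) * (d * n ^ K) := by
          rw [Finset.sum_const, nsmul_eq_mul]
      _ ≤ (K : ℝ) ^ 2 * (d * n ^ K) := mul_le_mul_of_nonneg_right hcard (by positivity)
      _ = (K : ℝ) ^ 2 * d * n ^ K := by ring

open Classical in
theorem card_one {V : Type} (S : Finset V) (U : V → ℝ) (hU : ∀ z, U z = 0 ∨ U z = 1) :
    (((S.filter (fun z => U z = 1)).card : ℕ) : ℝ) = ∑ z ∈ S, U z := by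
  rw [Finset.card_filter, Nat.cast_sum]
  apply Finset.sum_congr rfl
  intro z _
  rcases hU z with h | h <;> simp [h]

/-- degrees in `S` of the vertices outside `A1` -/
theorem deg_S {K : ℕ} (hK : 3 ≤ K) {e d : ℝ} {V : Type} [Fintype V] [DecidableEq V]
    {W : V → V → ℝ} (hW : Ker W) {Vi : Fin (K + 1 - 1) → Finset V} {A1 A2 : Finset V}
    (hn : 0 < Fintype.card V) (hd : d ≤ mu (K + 1) ^ 2 / 16)
    (hT : Typ (K + 1) e d W Vi A1 A2) (x : V) (hx : x ∉ A1) :
    3 / 5 * (Fintype.card V : ℝ) ≤ ∑ y ∈ (A1 ∪ A2)ᶜ, co W x y := by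
  set n : ℝ := (Fintype.card V : ℝ) with hn'
  have hn0 : 0 < n := by rw [hn']; exact_mod_cast hn
  have hm : mu (K + 1) ≤ 1 / 3 := by
    unfold mu
    push_cast
    have : (3 : ℝ) ≤ K := by exact_mod_cast hK
    rw [add_sub_cancel_right]
    exact one_div_le_one_div_of_le (by norm_num) this
  have hm0 : 0 < mu (K + 1) := by
    unfold mu
    push_cast
    have : (3 : ℝ) ≤ K := by exact_mod_cast hK
    rw [add_sub_cancel_right]
    positivity
  have h1 : dg W x ≤ mu (K + 1) + mu (K + 1) ^ 2 / 4 := hT.low x hx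
  unfold dg at h1
  rw [div_le_iff₀ hn0] at h1
  have h2 : ∑ y ∈ (A1 ∪ A2)ᶜ, co W x y + ∑ y ∈ A1 ∪ A2, co W x y = ∑ y, co W x y := by
    rw [add_comm, Finset.sum_add_sum_compl]
  have h3 : ∑ y, co W x y = n - ∑ y, W x y := by
    simp [co, Finset.sum_sub_distrib, hn']
  have h4 : ∑ y ∈ A1 ∪ A2, co W x y ≤ d * n := by
    calc ∑ y ∈ A1 ∪ A2, co W x y ≤ ∑ _y ∈ A1 ∪ A2, (1 : ℝ) :=
          Finset.sum_le_sum (fun y _ => ker_le (co_ker hW) x y)
      _ = ((A1 ∪ A2).card : ℝ) := by simp
      _ ≤ (A1.card : ℝ) + (A2.card : ℝ) := by exact_mod_cast Finset.card_union_le _ _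
      _ = (ms A1 + ms A2) * n := by unfold ms; field_simp; rw [hn']
      _ ≤ d * n := mul_le_mul_of_nonneg_right hT.small hn0.le
  have h5 : mu (K + 1) ^ 2 ≤ 1 / 9 := by nlinarith
  nlinarith

/-- the tree densities outside `A1` -/
theorem td_low (hcore : SCore) {K : ℕ} (hK : 3 ≤ K) {e d : ℝ} {V : Type} [Fintype V]
    [DecidableEq V]
    {W : V → V → ℝ} (hW : Ker W) {Vi : Fin (K + 1 - 1) → Finset V} {A1 A2 : Finset V}
    (hn : 0 < Fintype.card V) (hd : d ≤ mu (K + 1) ^ 2 / 16)
    (hT : Typ (K + 1) e d W Vi A1 A2) (T : Tr) (x : V) (hx : x ∉ A1) :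
    (3 / 5 : ℝ) ^ T.sz ≤ td (co W) T x := by
  apply hcore V (co W) (co_ker hW) ((A1 ∪ A2)ᶜ) (3 / 5) (by norm_num) _ T x
    (deg_S hK hW hn hd hT x hx)
  intro y hy
  apply deg_S hK hW hn hd hT y
  intro h
  simp [h] at hy

theorem lol_low (hcore : SCore) {K : ℕ} (hK : 3 ≤ K) {e d : ℝ} {V : Type} [Fintype V]
    [DecidableEq V]
    {W : V → V → ℝ} (hW : Ker W) {Vi : Fin (K + 1 - 1) → Finset V} {A1 A2 : Finset V}
    (hn : 0 < Fintype.card V) (hd : d ≤ mu (K + 1) ^ 2 / 16)
    (hT : Typ (K + 1) e d W Vi A1 A2) (T : Fin (K + 1) → Tr) :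
    ((cl (co W) A1ᶜ (K + 1)).card : ℝ) * (3 / 5 : ℝ) ^ (tot T) ≤
      lol (co W) T * (Fintype.card V : ℝ) ^ (K + 1) := by
  have hn0 : (0 : ℝ) < (Fintype.card V : ℝ) := by exact_mod_cast hn
  unfold lol
  rw [div_mul_cancel₀ _ (by positivity)]
  have h1 : cl (co W) A1ᶜ (K + 1) ⊆ cl (co W) univ (K + 1) := by
    intro x hx
    simp only [cl, Finset.mem_filter, Finset.mem_univ, true_and, implies_true] at hx ⊢
    exact hx.2
  calc ((cl (co W) A1ᶜ (K + 1)).card : ℝ) * (3 / 5 : ℝ) ^ (tot T)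
      = ∑ _x ∈ cl (co W) A1ᶜ (K + 1), (3 / 5 : ℝ) ^ (tot T) := by
        rw [Finset.sum_const, nsmul_eq_mul]
    _ ≤ ∑ x ∈ cl (co W) A1ᶜ (K + 1), ∏ i, td (co W) (T i) (x i) := by
        apply Finset.sum_le_sum
        intro x hx
        simp only [cl, Finset.mem_filter, Finset.mem_univ, true_and, Finset.mem_compl] at hx
        unfold tot
        rw [← Finset.prod_pow_eq_pow_sum]
        exact Finset.prod_le_prod (fun i _ => by positivity)
          (fun i _ => td_low hcore hK hW hn hd hT (T i) (x i) (hx.1 i))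
    _ ≤ ∑ x ∈ cl (co W) univ (K + 1), ∏ i, td (co W) (T i) (x i) := by
        apply Finset.sum_le_sum_of_subset_of_nonneg h1
        intro x _ _
        exact Finset.prod_nonneg (fun i _ => td_nn (co_ker hW) _ _)

theorem cross_le {K : ℕ} {e d : ℝ} {V : Type} [Fintype V] [DecidableEq V]
    {W : V → V → ℝ} (hW : Ker W) {Vi : Fin (K + 1 - 1) → Finset V} {A1 A2 : Finset V}
    (hn : 0 < Fintype.card V)
    (hT : Typ (K + 1) e d W Vi A1 A2) (j l : Fin (K + 1 - 1)) (hjl : j ≠ l) (P Q : Finset V)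
    (hP : P ⊆ Vi j) (hQ : Q ⊆ Vi l) :
    ∑ a ∈ P, ∑ b ∈ Q, W a b ≤ d * (Fintype.card V : ℝ) ^ 2 := by
  have hn0 : (0 : ℝ) < (Fintype.card V : ℝ) := by exact_mod_cast hn
  have h := hT.cross j l hjl
  unfold ee at h
  rw [div_le_iff₀ (by positivity)] at h
  refine le_trans ?_ h
  calc ∑ a ∈ P, ∑ b ∈ Q, W a b ≤ ∑ a ∈ P, ∑ b ∈ Vi l, W a b :=
        Finset.sum_le_sum (fun a _ => Finset.sum_le_sum_of_subset_of_nonneg hQ
          (fun b _ _ => ker_nn hW a b))
    _ ≤ ∑ a ∈ Vi j, ∑ b ∈ Vi l, W a b :=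
        Finset.sum_le_sum_of_subset_of_nonneg hP
          (fun a _ _ => Finset.sum_nonneg (fun b _ => ker_nn hW a b))

/-- case (2): the first vertex is in `A2` -/
theorem case2 {K : ℕ} (hK : 3 ≤ K) {e d : ℝ} {V : Type} [Fintype V] [DecidableEq V]
    {W : V → V → ℝ} (hW : Ker W) {Vi : Fin (K + 1 - 1) → Finset V} {A1 A2 : Finset V}
    (hn : 0 < Fintype.card V) (he0 : 0 < e) (hd0 : 0 < d)
    (hT : Typ (K + 1) e d W Vi A1 A2) (v : V) (hv : v ∈ A2) :
    ((e / 4) ^ K - (K : ℝ) ^ 2 * d) * (Fintype.card V : ℝ) ^ K ≤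
      ((Gs (K := K) (co W) A1ᶜ v).card : ℝ) := by
  classical
  have hn0 : (0 : ℝ) < (Fintype.card V : ℝ) := by exact_mod_cast hn
  let B : Fin K → Finset V := fun r => (Vi r).filter (fun z => co W v z = 1)
  have hB : ∀ r, ((B r).card : ℝ) = ∑ z ∈ Vi r, co W v z := fun r =>
    card_one (Vi r) (co W v) ((co_ker hW).zo v)
  have h := box_good (by omega) W hW B (fun _ => 1) (fun _ => zero_le_one) (e / 4) d
    (by positivity) hd0.le (fun r => by
      rw [hB, mul_one]; exact hT.atyp v hv r)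
    (fun r => by rw [mul_one]; exact_mod_cast Finset.card_le_univ _)
    (fun j l hjl => by
      rw [mul_one, mul_one]
      exact cross_le hW hn hT j l hjl _ _ (Finset.filter_subset _ _) (Finset.filter_subset _ _))
  rw [Finset.prod_const_one, mul_one] at h
  refine le_trans h ?_
  have : (Fintype.piFinset B).filter (fun z => ∀ j l, j ≠ l → co W (z j) (z l) = 1) ⊆
      Gs (K := K) (co W) A1ᶜ v := by
    intro z hz
    simp only [Finset.mem_filter, Fintype.mem_piFinset, B] at hz
    simp only [Gs, Finset.mem_filter, Finset.mem_univ, true_and, Finset.mem_compl]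
    refine ⟨fun j hj => ?_, fun j => (hz.1 j).2, hz.2⟩
    exact Finset.disjoint_left.mp (hT.d1 j) (hz.1 j).1 hj
  exact_mod_cast Finset.card_le_card this

/-- red degrees of typical vertices outside their part -/
theorem out_le {K : ℕ} {e d : ℝ} {V : Type} [Fintype V] [DecidableEq V]
    {W : V → V → ℝ} (hW : Ker W) {Vi : Fin (K + 1 - 1) → Finset V} {A1 A2 : Finset V}
    (hn : 0 < Fintype.card V)
    (hT : Typ (K + 1) e d W Vi A1 A2) (i r : Fin (K + 1 - 1)) (hir : i ≠ r) (v : V)
    (hv : v ∈ Vi i) :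
    ∑ z ∈ Vi r, W v z ≤ (mu (K + 1) ^ 2 / 4 + d + e) * (Fintype.card V : ℝ) := by
  set n : ℝ := (Fintype.card V : ℝ) with hn'
  have hn0 : 0 < n := by rw [hn']; exact_mod_cast hn
  have h1 : dg W v ≤ mu (K + 1) + mu (K + 1) ^ 2 / 4 :=
    hT.low v (Finset.disjoint_left.mp (hT.d1 i) hv)
  unfold dg at h1
  rw [div_le_iff₀ hn0] at h1
  have h2 : ∑ z ∈ Vi i, W v z + ∑ z ∈ Vi r, W v z ≤ ∑ z, W v z := by
    rw [← Finset.sum_union (hT.disj i r hir)]
    exact Finset.sum_le_sum_of_subset_of_nonneg (Finset.subset_univ _)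
      (fun z _ _ => ker_nn hW v z)
  have h3 := hT.typ i v hv
  have h4 : ∑ z ∈ Vi i, co W v z = ((Vi i).card : ℝ) - ∑ z ∈ Vi i, W v z := by
    simp [co, Finset.sum_sub_distrib]
  have h5 := (abs_le.mp (hT.size i)).1
  unfold ms at h5
  have h6 : (mu (K + 1) - d) * n ≤ ((Vi i).card : ℝ) := by
    have : mu (K + 1) - d ≤ ((Vi i).card : ℝ) / n := by linarith
    rwa [le_div_iff₀ hn0] at this
  rw [← hn'] at h3
  nlinarith

/-- case (1): the first vertex and the `i`-th vertex are in the part `i` -/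
theorem case1 {K : ℕ} (hK : 3 ≤ K) {e d : ℝ} {V : Type} [Fintype V] [DecidableEq V]
    {W : V → V → ℝ} (hW : Ker W) {Vi : Fin (K + 1 - 1) → Finset V} {A1 A2 : Finset V}
    (hn : 0 < Fintype.card V) (he0 : 0 < e) (he : e ≤ mu (K + 1) ^ 2 / 16) (hd0 : 0 < d)
    (hd : d ≤ mu (K + 1) ^ 2 / 16)
    (hT : Typ (K + 1) e d W Vi A1 A2) (i : Fin K) (v y : V) (hv : v ∈ Vi i) (hy : y ∈ Vi i)
    (hvy : co W v y = 1) :
    ((e / 4) ^ K - (K : ℝ) ^ 2 * d) * (Fintype.card V : ℝ) ^ K ≤
      (((Gs (K := K) (co W) A1ᶜ v).filter (fun z => z i = y)).card : ℝ) *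
        (Fintype.card V : ℝ) := by
  classical
  set n : ℝ := (Fintype.card V : ℝ) with hn'
  have hn0 : 0 < n := by rw [hn']; exact_mod_cast hn
  have hn1 : 1 ≤ n := by rw [hn']; exact_mod_cast hn
  have hm : mu (K + 1) ≤ 1 / 3 := by
    unfold mu
    push_cast
    have : (3 : ℝ) ≤ K := by exact_mod_cast hK
    rw [add_sub_cancel_right]
    exact one_div_le_one_div_of_le (by norm_num) this
  have hm0 : 0 < mu (K + 1) := by
    unfold mu
    push_cast
    have : (3 : ℝ) ≤ K := by exact_mod_cast hK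
    rw [add_sub_cancel_right]
    positivity
  let B : Fin K → Finset V := fun r => if r = i then {y} else
    (Vi r).filter (fun z => co W v z = 1 ∧ co W y z = 1)
  have hBi : B i = {y} := by simp [B]
  have hBr : ∀ r, r ≠ i → B r = (Vi r).filter (fun z => co W v z = 1 ∧ co W y z = 1) := by
    intro r hr; simp [B, hr]
  have hBs : ∀ r, B r ⊆ Vi r := by
    intro r
    by_cases hr : r = i
    · rw [hr, hBi]; simpa using hy
    · rw [hBr r hr]; exact Finset.filter_subset _ _
  have hBc : ∀ r, r ≠ i → e / 4 * n ≤ ((B r).card : ℝ) := by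
    intro r hr
    have h1 := out_le hW hn hT i r (Ne.symm hr) v hv
    have h2 := out_le hW hn hT i r (Ne.symm hr) y hy
    have h5 := (abs_le.mp (hT.size r)).1
    unfold ms at h5
    have h6 : (mu (K + 1) - d) * n ≤ ((Vi r).card : ℝ) := by
      have : mu (K + 1) - d ≤ ((Vi r).card : ℝ) / n := by linarith
      rwa [le_div_iff₀ hn0] at this
    have h7 : ((Vi r).card : ℝ) ≤ ((B r).card : ℝ) + ∑ z ∈ Vi r, W v z + ∑ z ∈ Vi r, W y z := by
      rw [hBr r hr, Finset.card_filter, Nat.cast_sum, ← Finset.sum_add_distrib,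
        ← Finset.sum_add_distrib, Finset.card_eq_sum_ones, Nat.cast_sum]
      apply Finset.sum_le_sum
      intro z _
      rcases hW.zo v z with h | h <;> rcases hW.zo y z with h' | h' <;> simp [co, h, h']
    rw [← hn'] at h1 h2
    have h8 : mu (K + 1) - d - 2 * (mu (K + 1) ^ 2 / 4 + d + e) ≥ e / 4 := by nlinarith
    nlinarith
  let w : Fin K → ℝ := fun r => if r = i then n else 1
  have hwi : w i = n := by simp [w]
  have hwr : ∀ r, r ≠ i → w r = 1 := by intro r hr; simp [w, hr]
  have hw0 : ∀ r, 0 ≤ w r := by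
    intro r
    by_cases hr : r = i
    · rw [hr, hwi]; exact hn0.le
    · rw [hwr r hr]; exact zero_le_one
  have h := box_good (by omega) W hW B w hw0 (e / 4) d (by positivity) hd0.le
    (fun r => by
      by_cases hr : r = i
      · rw [hr, hwi, hBi]
        rw [← hn']
        simp only [Finset.card_singleton, Nat.cast_one, one_mul]
        have he1 : e / 4 ≤ 1 := by nlinarith
        nlinarith
      · rw [hwr r hr, mul_one]; exact hBc r hr)
    (fun r => by
      by_cases hr : r = i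
      · rw [hr, hwi, hBi]; simp [hn']
      · rw [hwr r hr, mul_one]; exact_mod_cast Finset.card_le_univ _)
    (fun j l hjl => by
      by_cases hj : j = i
      · have hl : l ≠ i := fun h => hjl (hj.trans h.symm)
        have hz : ∑ a ∈ B j, ∑ b ∈ B l, W a b = 0 := by
          rw [hj, hBi, Finset.sum_singleton, hBr l hl]
          apply Finset.sum_eq_zero
          intro b hb
          have := (Finset.mem_filter.mp hb).2.2
          simp only [co] at this
          linarith
        rw [hz, zero_mul]; positivity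
      · by_cases hl : l = i
        · have hz : ∑ a ∈ B j, ∑ b ∈ B l, W a b = 0 := by
            rw [hl, hBi]
            apply Finset.sum_eq_zero
            intro a ha
            rw [Finset.sum_singleton, hW.symm]
            rw [hBr j hj] at ha
            have := (Finset.mem_filter.mp ha).2.2
            simp only [co] at this
            linarith
          rw [hz, zero_mul]; positivity
        · rw [hwr j hj, hwr l hl, mul_one, mul_one]
          exact cross_le hW hn hT j l hjl _ _ (hBs j) (hBs l))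
  have hwp : ∏ r, w r = n := by
    simp [w, Finset.prod_ite_eq']
  rw [hwp] at h
  refine le_trans h ?_
  apply mul_le_mul_of_nonneg_right _ hn0.le
  have : (Fintype.piFinset B).filter (fun z => ∀ j l, j ≠ l → co W (z j) (z l) = 1) ⊆
      (Gs (K := K) (co W) A1ᶜ v).filter (fun z => z i = y) := by
    intro z hz
    simp only [Finset.mem_filter, Fintype.mem_piFinset] at hz
    have hzi : z i = y := by
      have := hz.1 i
      rw [hBi] at this
      simpa using this
    simp only [Gs, Finset.mem_filter, Finset.mem_univ, true_and, Finset.mem_compl]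
    refine ⟨⟨fun j hj => ?_, fun j => ?_, hz.2⟩, hzi⟩
    · exact Finset.disjoint_left.mp (hT.d1 j) (hBs j (hz.1 j)) hj
    · by_cases hj : j = i
      · rw [hj, hzi]; exact hvy
      · have := hz.1 j
        rw [hBr j hj] at this
        exact (Finset.mem_filter.mp this).2.1
  exact_mod_cast Finset.card_le_card this

/-- COST -/
theorem cost (hcore : SCore) : SCost := by
  intro k hk e he0 he
  obtain ⟨K, rfl⟩ : ∃ K, k = K + 1 := ⟨k - 1, by omega⟩
  have hK : 3 ≤ K := by omega
  have hKr : (3 : ℝ) ≤ K := by exact_mod_cast hK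
  have hm0 : 0 < mu (K + 1) := by
    unfold mu
    push_cast
    rw [add_sub_cancel_right]
    positivity
  refine ⟨min (mu (K + 1) ^ 2 / 16) ((e / 4) ^ K / (2 * (K : ℝ) ^ 2)), (e / 4) ^ K / 4,
    lt_min (by positivity) (by positivity), by positivity, ?_⟩
  intro d hd0 hd V _ _ W Vi A1 A2 hW hn hT T
  have hd1 : d ≤ mu (K + 1) ^ 2 / 16 := hd.trans (min_le_left _ _)
  have hd2 : d ≤ (e / 4) ^ K / (2 * (K : ℝ) ^ 2) := hd.trans (min_le_right _ _)
  set n : ℝ := (Fintype.card V : ℝ) with hn'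
  have hn0 : 0 < n := by rw [hn']; exact_mod_cast hn
  have hq : (e / 4) ^ K / 2 ≤ (e / 4) ^ K - (K : ℝ) ^ 2 * d := by
    rw [le_div_iff₀ (by positivity)] at hd2
    nlinarith
  have hc2 : ∀ v ∈ A2, (e / 4) ^ K / 2 * n ^ K ≤ ((Gs (K := K) (co W) A1ᶜ v).card : ℝ) :=
    fun v hv => le_trans (mul_le_mul_of_nonneg_right hq (by positivity))
      (case2 hK hW hn he0 hd0 hT v hv)
  have hN := cons_le (K := K) (co W) (co_ker hW) A1ᶜ
  have hN' : ∑ v ∈ A1ᶜ, ((Gs (K := K) (co W) A1ᶜ v).card : ℝ) ≤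
      ((cl (co W) A1ᶜ (K + 1)).card : ℝ) := by exact_mod_cast hN
  have h2 : (e / 4) ^ K / 2 * n ^ (K + 1) * ms A2 ≤ ((cl (co W) A1ᶜ (K + 1)).card : ℝ) := by
    calc (e / 4) ^ K / 2 * n ^ (K + 1) * ms A2
        = ∑ _v ∈ A2, (e / 4) ^ K / 2 * n ^ K := by
          rw [Finset.sum_const, nsmul_eq_mul]
          unfold ms
          rw [← hn']
          field_simp
          ring
      _ ≤ ∑ v ∈ A2, ((Gs (K := K) (co W) A1ᶜ v).card : ℝ) := Finset.sum_le_sum hc2
      _ ≤ ∑ v ∈ A1ᶜ, ((Gs (K := K) (co W) A1ᶜ v).card : ℝ) := by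
          apply Finset.sum_le_sum_of_subset_of_nonneg
          · intro v hv
            rw [Finset.mem_compl]
            exact Finset.disjoint_right.mp hT.d12 hv
          · intro v _ _; exact Nat.cast_nonneg _
      _ ≤ _ := hN'
  have hc1 : ∀ i, ∀ v ∈ Vi i, (e / 4) ^ K / 2 * n ^ K * ∑ y ∈ Vi i, co W v y ≤
      ((Gs (K := K) (co W) A1ᶜ v).card : ℝ) * n := by
    classical
    intro i v hv
    have h3 : ∑ y ∈ Vi i, (((Gs (K := K) (co W) A1ᶜ v).filter (fun z => z i = y)).card : ℝ) ≤
        ((Gs (K := K) (co W) A1ᶜ v).card : ℝ) := by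
      have : ∑ y ∈ Vi i, ((Gs (K := K) (co W) A1ᶜ v).filter (fun z => z i = y)).card ≤
          (Gs (K := K) (co W) A1ᶜ v).card := by
        rw [← Finset.card_biUnion]
        · apply Finset.card_le_card
          intro z hz
          rw [Finset.mem_biUnion] at hz
          obtain ⟨y, _, hz⟩ := hz
          exact (Finset.mem_filter.mp hz).1
        · intro y _ y' _ hyy
          rw [Function.onFun, Finset.disjoint_left]
          intro z hz hz'
          exact hyy ((Finset.mem_filter.mp hz).2.symm.trans (Finset.mem_filter.mp hz').2)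
      exact_mod_cast this
    calc (e / 4) ^ K / 2 * n ^ K * ∑ y ∈ Vi i, co W v y
        = ∑ y ∈ Vi i, (e / 4) ^ K / 2 * n ^ K * co W v y := by rw [Finset.mul_sum]
      _ ≤ ∑ y ∈ Vi i,
          (((Gs (K := K) (co W) A1ᶜ v).filter (fun z => z i = y)).card : ℝ) * n := by
          apply Finset.sum_le_sum
          intro y hy
          rcases (co_ker hW).zo v y with h | h
          · rw [h, mul_zero]; positivity
          · rw [h, mul_one]
            exact le_trans (mul_le_mul_of_nonneg_right hq (by positivity))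
              (case1 hK hW hn he0 he hd0 hd1 hT i v y hv hy h)
      _ = (∑ y ∈ Vi i,
          (((Gs (K := K) (co W) A1ᶜ v).filter (fun z => z i = y)).card : ℝ)) * n := by
          rw [Finset.sum_mul]
      _ ≤ _ := mul_le_mul_of_nonneg_right h3 hn0.le
  have h1 : (e / 4) ^ K / 2 * n ^ (K + 1) * bl W Vi ≤
      ((cl (co W) A1ᶜ (K + 1)).card : ℝ) := by
    have h4 : (e / 4) ^ K / 2 * n ^ K * (∑ i, ∑ v ∈ Vi i, ∑ y ∈ Vi i, co W v y) ≤
        ((cl (co W) A1ᶜ (K + 1)).card : ℝ) * n := by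
      calc (e / 4) ^ K / 2 * n ^ K * (∑ i, ∑ v ∈ Vi i, ∑ y ∈ Vi i, co W v y)
          = ∑ i, ∑ v ∈ Vi i, (e / 4) ^ K / 2 * n ^ K * ∑ y ∈ Vi i, co W v y := by
            rw [Finset.mul_sum]
            apply Finset.sum_congr rfl
            intro i _
            rw [Finset.mul_sum]
        _ ≤ ∑ i, ∑ v ∈ Vi i, ((Gs (K := K) (co W) A1ᶜ v).card : ℝ) * n :=
            Finset.sum_le_sum (fun i _ => Finset.sum_le_sum (fun v hv => hc1 i v hv))
        _ = (∑ i, ∑ v ∈ Vi i, ((Gs (K := K) (co W) A1ᶜ v).card : ℝ)) * n := by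
            rw [Finset.sum_mul]
            apply Finset.sum_congr rfl
            intro i _
            rw [Finset.sum_mul]
        _ ≤ (∑ v ∈ A1ᶜ, ((Gs (K := K) (co W) A1ᶜ v).card : ℝ)) * n := by
            apply mul_le_mul_of_nonneg_right _ hn0.le
            rw [← Finset.sum_biUnion]
            · apply Finset.sum_le_sum_of_subset_of_nonneg
              · intro v hv
                rw [Finset.mem_biUnion] at hv
                obtain ⟨i, _, hv⟩ := hv
                rw [Finset.mem_compl]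
                exact Finset.disjoint_left.mp (hT.d1 i) hv
              · intro v _ _; exact Nat.cast_nonneg _
            · intro i _ j _ hij
              exact hT.disj i j hij
        _ ≤ _ := mul_le_mul_of_nonneg_right hN' hn0.le
    have h5 : bl W Vi * n ^ 2 = ∑ i, ∑ v ∈ Vi i, ∑ y ∈ Vi i, co W v y := by
      unfold bl ee
      rw [Finset.sum_mul]
      apply Finset.sum_congr rfl
      intro i _
      rw [div_mul_cancel₀ _ (by positivity)]
    rw [← h5] at h4
    have h6 : (e / 4) ^ K / 2 * n ^ K * (bl W Vi * n ^ 2) =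
        (e / 4) ^ K / 2 * n ^ (K + 1) * bl W Vi * n := by ring
    rw [h6] at h4
    exact le_of_mul_le_mul_right h4 hn0
  have h7 := lol_low hcore hK hW hn hd1 hT T
  rw [← hn'] at h7
  have h8 : (e / 4) ^ K / 4 * (bl W Vi + ms A2) * n ^ (K + 1) ≤
      ((cl (co W) A1ᶜ (K + 1)).card : ℝ) := by nlinarith
  have h9 : (e / 4) ^ K / 4 * (bl W Vi + ms A2) * (3 / 5 : ℝ) ^ (tot T) * n ^ (K + 1) ≤
      lol (co W) T * n ^ (K + 1) := by
    calc _ = ((e / 4) ^ K / 4 * (bl W Vi + ms A2) * n ^ (K + 1)) * (3 / 5 : ℝ) ^ (tot T) := by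
          ring
      _ ≤ ((cl (co W) A1ᶜ (K + 1)).card : ℝ) * (3 / 5 : ℝ) ^ (tot T) :=
          mul_le_mul_of_nonneg_right h8 (by positivity)
      _ ≤ _ := h7
  exact le_of_mul_le_mul_right h9 (by positivity)

end Pool.Agent.W28.LP
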